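import Pool.Agent.Helper34.SQ.GoalsT

/-!
# Project SQ (MP_bb32d1_al), goal FIVE: `(E F I) I ≤ F E I`
-/

set_option autoImplicit false
set_option linter.unusedSectionVars false

namespace Pool.Agent.Helper96.SQ

noncomputable section

open Matrix Pool.Agent.Helper19.SQ Pool.Agent.Helper34.SQ

variable {A : Type} [Ring A] [Algebra ℂ A] {ι κ : Type} [Fintype ι] [DecidableEq ι]
  [Fintype κ] [DecidableEq κ]

/-- all entries are in `I` -/
def InI (I : Submodule ℂ A) (M : Matrix κ κ A) : Prop := ∀ x y, M x y ∈ I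

theorem InI.add {I : Submodule ℂ A} {M M' : Matrix κ κ A} (h : InI I M) (h' : InI I M') :
    InI I (M + M') := fun x y => I.add_mem (h x y) (h' x y)

theorem InI.mul_left {I : Submodule ℂ A} (hI : TwoS I) {M : Matrix κ κ A} (M' : Matrix κ κ A)
    (h : InI I M) : InI I (M' * M) := by
  intro x y
  rw [Matrix.mul_apply]
  exact Submodule.sum_mem _ fun z _ => (hI (M' x z) _ (h z y)).1

theorem InI.mul_right {I : Submodule ℂ A} (hI : TwoS I) {M : Matrix κ κ A} (M' : Matrix κ κ A)
    (h : InI I M) : InI I (M * M') := by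
  intro x y
  rw [Matrix.mul_apply]
  exact Submodule.sum_mem _ fun z _ => (hI (M' z y) _ (h x z)).2

theorem InI.smul {I : Submodule ℂ A} {M : Matrix κ κ A} (c : ℂ) (h : InI I M) :
    InI I (c • M) := fun x y => I.smul_mem c (h x y)

theorem Phi_mul_X1 (f : A →ₐ[ℂ] Matrix ι ι A) (M : Matrix ι ι A) (b : A) (x y : ι × ι) :
    (Phi f M * X1 (f b)) x y = f (M x.1 y.1 * b) x.2 y.2 := by
  rw [X1_delta, ← map_mul, Phi_apply, Matrix.mul_diagonal]

theorem t_five (hCORE1 : S_CORE1) (hBLX : S_BLX) : S_FIVE := by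
  intro A _ _ ι _ _ l C c m I hI h1m
  obtain ⟨_, hX2, _, hX1p, hpev, _⟩ := hCORE1 A ι l C
  have hblx := hBLX A ι l C c m
  have em1 : m - al c + al c = m := sub_add_cancel m (al c)
  have em2 : m + al c - al c = m := add_sub_cancel_right m (al c)
  rw [Submodule.mul_le]
  intro a ha x hx
  have ha' : ∀ i j p k, C.δ (C.ε (a * C.e m) i j * C.e (m - al c)) p k ∈ I := by
    intro i j p k
    have h := (mem_Fi C c m I _).1 ((mem_Ei C c (m - al c) _ a).1 ha i j) p k
    rwa [em1] at h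
  -- (1) D1 (a e_m) (pev p_c X1)
  have hM : InI I (D1 C.δ C.ε (a * C.e m) * pev (C.pc c) (X1 C.X)) := by
    have s1 : InI I (D1 C.δ C.ε (a * C.e m) * X1 (C.δ (C.e (m - al c)))) := by
      intro y z
      rw [D1_eq, Phi_mul_X1]
      exact ha' _ _ _ _
    have e1 : X1 (pev (C.pc c) C.X) * X1 (Matrix.diagonal fun _ : ι => C.e m) =
        X1 (C.δ (C.e (m - al c))) * X1 (Matrix.diagonal fun _ : ι => C.e m) := by
      rw [← bd_eq, ← bd_eq, ← bd_eq, ← map_mul, ← map_mul, C.BL1]
    have e2 : (1 : Matrix (ι × ι) (ι × ι) A) = X1 (Matrix.diagonal fun _ : ι => C.e m) +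
        X1 (Matrix.diagonal fun _ : ι => (1 - C.e m)) := by
      rw [← bd_eq, ← bd_eq, ← map_add, Matrix.diagonal_add, ← map_one (bd (A := A) (ι := ι)),
        ← Matrix.diagonal_one]
      congr 2
      funext i
      exact (add_sub_cancel (C.e m) 1).symm
    have e3 : InI I (X1 (Matrix.diagonal fun _ : ι => (1 - C.e m))) := by
      intro y z
      rw [← bd_eq, bd_apply]
      by_cases h : y.1 = z.1
      · rw [if_pos h, Matrix.diagonal_apply]
        by_cases h' : y.2 = z.2
        · rw [if_pos h']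
          exact h1m
        · rw [if_neg h']
          exact I.zero_mem
      · rw [if_neg h]
        exact I.zero_mem
    rw [pev_X1, ← mul_one (D1 C.δ C.ε (a * C.e m) * X1 (pev (C.pc c) C.X)), e2, mul_add]
    refine InI.add ?_ (InI.mul_left hI _ e3)
    rw [mul_assoc, e1, ← mul_assoc]
    exact InI.mul_right hI _ s1
  -- (2) D2 (a e_m) (pev p_c X1')
  have hM2 : InI I (D2 C.δ C.ε (a * C.e m) *
      pev (C.pc c) (sc A C.S * X1 C.X * sc A C.T)) := by
    rw [hpev, ← mul_assoc, ← mul_assoc, ← C.inter, mul_assoc (sc A C.S)]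
    exact InI.mul_right hI _ (InI.mul_left hI _ hM)
  -- (3) D2 (a x e_m) (pev p_c X1')
  have hy : a * x * C.e m ∈ I := (hI _ _ (hI a x hx).1).2
  have hM3 : InI I (D2 C.δ C.ε (a * x * C.e m) *
      pev (C.pc c) (sc A C.S * X1 C.X * sc A C.T)) := by
    have e1 : a * x * C.e m = a * C.e m * x := by
      rw [mul_assoc, mul_assoc, C.e_cen]
    rw [e1, D2_mul, mul_assoc, ← pev_comm (hX1p x), ← mul_assoc]
    exact InI.mul_right hI _ hM2
  -- (4) differences
  have hM4 : ∀ y ∈ I, ∀ k : ℕ, InI I (D2 C.δ C.ε y * (X2 C.ε C.X ^ k -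
      (sc A C.S * X1 C.X * sc A C.T) ^ k)) := by
    intro y hy k
    induction k with
    | zero =>
      intro z w
      rw [pow_zero, pow_zero, sub_self, mul_zero]
      exact I.zero_mem
    | succ k ih =>
      have e1 : X2 C.ε C.X ^ (k + 1) - (sc A C.S * X1 C.X * sc A C.T) ^ (k + 1) =
          X2 C.ε C.X ^ k * (X2 C.ε C.X - sc A C.S * X1 C.X * sc A C.T) +
          (X2 C.ε C.X ^ k - (sc A C.S * X1 C.X * sc A C.T) ^ k) *
            (sc A C.S * X1 C.X * sc A C.T) := by
        rw [pow_succ, pow_succ]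
        noncomm_ring
      have e2 : X2 C.ε C.X - sc A C.S * X1 C.X * sc A C.T = Matrix.vecMulVec C.u C.v := by
        rw [C.X2eq]
        exact add_sub_cancel_left _ _
      have e3 : D2 C.δ C.ε y * X2 C.ε C.X ^ k = X2 C.ε C.X ^ k * D2 C.δ C.ε y := by
        have h : Commute (X2 C.ε C.X) (D2 C.δ C.ε y) := hX2 y
        exact (h.pow_left k).symm
      rw [e1, mul_add, e2, ← mul_assoc, ← mul_assoc, e3]
      refine InI.add ?_ (InI.mul_right hI _ ih)
      rw [mul_assoc]
      refine InI.mul_left hI _ ?_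
      intro z w
      rw [Matrix.mul_vecMulVec, C.uD, Matrix.vecMulVec_apply]
      exact (hI _ _ (hI _ _ hy).1).2
  have hM5 : ∀ y ∈ I, ∀ p : Polynomial ℂ, InI I (D2 C.δ C.ε y * (pev p (X2 C.ε C.X) -
      pev p (sc A C.S * X1 C.X * sc A C.T))) := by
    intro y hy p
    induction p using Polynomial.induction_on' with
    | add p q hp hq =>
      have e1 : D2 C.δ C.ε y * (pev (p + q) (X2 C.ε C.X) -
          pev (p + q) (sc A C.S * X1 C.X * sc A C.T)) =
          D2 C.δ C.ε y * (pev p (X2 C.ε C.X) - pev p (sc A C.S * X1 C.X * sc A C.T)) +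
          D2 C.δ C.ε y * (pev q (X2 C.ε C.X) - pev q (sc A C.S * X1 C.X * sc A C.T)) := by
        simp only [pev, map_add]
        noncomm_ring
      rw [e1]
      exact InI.add hp hq
    | monomial n r =>
      have e1 : D2 C.δ C.ε y * (pev (Polynomial.monomial n r) (X2 C.ε C.X) -
          pev (Polynomial.monomial n r) (sc A C.S * X1 C.X * sc A C.T)) =
          r • (D2 C.δ C.ε y * (X2 C.ε C.X ^ n - (sc A C.S * X1 C.X * sc A C.T) ^ n)) := by
        simp only [pev, Polynomial.aeval_monomial, ← Algebra.smul_def]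
        rw [← smul_sub, mul_smul_comm]
      rw [e1]
      exact InI.smul r (hM4 y hy n)
  have hM6 : InI I (D2 C.δ C.ε (a * x * C.e m) * pev (C.pc c) (X2 C.ε C.X)) := by
    have h := InI.add (hM5 _ hy (C.pc c)) hM3
    rwa [mul_sub, sub_add_cancel] at h
  have hM7 : InI I (D2 C.δ C.ε (a * x * C.e m) * X1 (C.ε (C.e (m + al c)))) := by
    have e1 : D2 C.δ C.ε (a * x * C.e m) * pev (C.pc c) (X2 C.ε C.X) =
        D2 C.δ C.ε (a * x * C.e m) * X1 (C.ε (C.e (m + al c))) := by
      rw [D2_mul, mul_assoc, ← pev_comm (hX2 (C.e m)), hblx, ← mul_assoc]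
    rwa [e1] at hM6
  rw [mem_Fi]
  intro i j
  rw [mem_Ei]
  intro p k
  rw [em2]
  have h := hM7 (i, p) (j, k)
  rw [D2_eq, Phi_mul_X1] at h
  exact h

end

end Pool.Agent.Helper96.SQ
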