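import Pool.Agent.Helper19.SQ.GoalsS

/-!
# Project SQ (MP_bb32d1_al), goal ZB: the basis `F^a zgen` of `Z(lam)`
-/

set_option autoImplicit false

namespace Pool.Agent.Helper96.SQ.ZB

open Pool.Agent.Helper19.SQ

noncomputable section

section Gen

variable {B : Type} [Ring B] [Algebra ℂ B]

theorem mon_eq_zero {N l : ℕ} {q : ℂ} {E : ℕ → B} (hp : ∀ d i, rvA q E d i ^ l = 0)
    {b : ℕ → ℕ → ℕ} {i j : ℕ} (hij : i < j) (hj : j ≤ N) (hb : l ≤ b i j) :
    mon N q E b = 0 := by
  apply List.prod_eq_zero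
  rw [List.mem_map]
  refine ⟨i, List.mem_range.2 (by omega), ?_⟩
  apply List.prod_eq_zero
  rw [List.mem_map]
  refine ⟨j - i - 1, List.mem_range.2 (by omega), ?_⟩
  have e : i + 1 + (j - i - 1) = j := by omega
  rw [e]
  exact pow_eq_zero_of_le hb (hp _ _)

end Gen

section Act

variable {N l : ℕ} {q : ℂ} {M : Type} [AddCommGroup M] [Module ℂ M] [Module (A N l q) M]
  [IsScalarTower ℂ (A N l q) M]

theorem smul_csmul (a : A N l q) (c : ℂ) (m : M) : a • (c • m) = c • (a • m) :=
  (lsm a).map_smul c m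

omit [Module ℂ M] [IsScalarTower ℂ (A N l q) M] in
theorem list_kill (m : M) : ∀ L : List (A N l q), (∀ x ∈ L, x = 1 ∨ x • m = 0) →
    L.prod = 1 ∨ L.prod • m = 0 := by
  intro L
  induction L with
  | nil => intro _; left; rfl
  | cons x L ih =>
    intro h
    rw [List.prod_cons]
    rcases ih (fun y hy => h y (List.mem_cons_of_mem _ hy)) with h1 | h1
    · rw [h1, mul_one]
      exact h x List.mem_cons_self
    · right
      rw [mul_smul, h1, smul_zero]

theorem list_scal (m : M) : ∀ L : List (A N l q), (∀ x ∈ L, ∃ c : ℂ, x • m = c • m) →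
    ∃ c : ℂ, L.prod • m = c • m := by
  intro L
  induction L with
  | nil => intro _; exact ⟨1, by rw [List.prod_nil, one_smul, one_smul]⟩
  | cons x L ih =>
    intro h
    obtain ⟨c, hc⟩ := ih (fun y hy => h y (List.mem_cons_of_mem _ hy))
    obtain ⟨d, hd⟩ := h x List.mem_cons_self
    exact ⟨c * d, by rw [List.prod_cons, mul_smul, hc, smul_csmul, hd, smul_smul]⟩

theorem rvA_kill (m : M) (hm : ∀ i, gE N l q i • m = 0) (d : ℕ) : ∀ i,
    rvA q (gE N l q) d i • m = 0 := by
  induction d with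
  | zero => exact hm
  | succ d ih =>
    intro i
    have e : rvA q (gE N l q) (d + 1) i = gE N l q i * rvA q (gE N l q) d (i + 1)
      - q⁻¹ • (rvA q (gE N l q) d (i + 1) * gE N l q i) := rfl
    rw [e, sub_smul, smul_assoc, mul_smul, mul_smul, ih, hm, smul_zero, smul_zero, smul_zero,
      sub_zero]

theorem mon_kill (m : M) (hm : ∀ i, gE N l q i • m = 0) (b : ℕ → ℕ → ℕ) :
    mon N q (gE N l q) b = 1 ∨ mon N q (gE N l q) b • m = 0 := by
  apply list_kill
  intro x hx
  rw [List.mem_map] at hx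
  obtain ⟨i, _, rfl⟩ := hx
  apply list_kill
  intro x hx
  rw [List.mem_map] at hx
  obtain ⟨d, _, rfl⟩ := hx
  rcases Nat.eq_zero_or_pos (b i (i + 1 + d)) with h | h
  · left; rw [h, pow_zero]
  · right
    obtain ⟨c, hc⟩ : ∃ c, b i (i + 1 + d) = c + 1 := ⟨b i (i + 1 + d) - 1, by omega⟩
    rw [hc, pow_succ, mul_smul]
    have : rv q (gE N l q) i (i + 1 + d) • m = 0 := rvA_kill m hm _ i
    rw [this, smul_zero]

theorem kmon_scal (m : M) (lam : Fin (N + 1) → ZMod l) (hm : Sing q lam m) (κ : ℕ → ℕ) :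
    ∃ c : ℂ, kmon N (gK N l q) κ • m = c • m := by
  apply list_scal
  intro x hx
  rw [List.mem_map] at hx
  obtain ⟨j, hj, rfl⟩ := hx
  have hj' : j < N + 1 := List.mem_range.1 hj
  have h1 := hm.2 ⟨j, hj'⟩
  have h1' : gK N l q j • m = qz q (lam ⟨j, hj'⟩) • m := h1
  refine ⟨qz q (lam ⟨j, hj'⟩) ^ κ j, ?_⟩
  generalize κ j = n
  induction n with
  | zero => rw [pow_zero, pow_zero, one_smul, one_smul]
  | succ n ih => rw [pow_succ, mul_smul, h1', smul_csmul, ih, smul_smul, pow_succ, mul_comm]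

theorem span_top (hTRI : S_TRI) (hpar : Par N l q) (m : M) (lam : Fin (N + 1) → ZMod l)
    (hm : Sing q lam m) (hg : Submodule.span (A N l q) {m} = ⊤) :
    Submodule.span ℂ (Set.range fun a : EX N l => mon N q (gF N l q) a.1 • m) = ⊤ := by
  rw [eq_top_iff]
  intro v _
  have hv : v ∈ Submodule.span (A N l q) {m} := by rw [hg]; trivial
  obtain ⟨x, rfl⟩ := Submodule.mem_span_singleton.1 hv
  have hx := hTRI N l q hpar x
  induction hx using Submodule.span_induction with
  | mem y hy =>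
    obtain ⟨a, b, κ, _, rfl⟩ := hy
    rcases mon_kill m hm.1 b.1 with h | h
    · obtain ⟨c, hc⟩ := kmon_scal m lam hm κ
      rw [h, mul_one, mul_smul, hc, smul_csmul]
      exact Submodule.smul_mem _ _ (Submodule.subset_span ⟨a, rfl⟩)
    · rw [mul_smul, h, smul_zero]
      exact Submodule.zero_mem _
  | zero => rw [zero_smul]; exact Submodule.zero_mem _
  | add y z _ _ hy hz =>
    rw [add_smul]
    exact Submodule.add_mem _ (hy trivial (by rw [hg]; trivial)) (hz trivial (by rw [hg]; trivial))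
  | smul c y _ hy =>
    rw [smul_assoc]
    exact Submodule.smul_mem _ _ (hy trivial (by rw [hg]; trivial))

theorem par_facts (hpar : Par N l q) : q ≠ 0 ∧ q ^ 2 ≠ 1 ∧ q ^ 2 ≠ -1 := by
  have h3 := hpar.h3
  refine ⟨hpar.prim.ne_zero (by omega), ?_, ?_⟩
  · intro h
    have := Nat.le_of_dvd (by norm_num) (hpar.prim.dvd_of_pow_eq_one 2 h)
    omega
  · intro h
    have h4 : q ^ 4 = 1 := by
      have : q ^ 4 = (q ^ 2) ^ 2 := by ring
      rw [this, h]; norm_num
    have hd := hpar.prim.dvd_of_pow_eq_one 4 h4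
    have hle := Nat.le_of_dvd (by norm_num) hd
    have ho := hpar.odd
    interval_cases l
    · norm_num at hd
    · exact absurd ho (by decide)

theorem li_of_top (hSOC : S_SOC) (hLM : S_LM) (hpar : Par N l q) (m : M)
    (ht : mon N q (gF N l q) (topE N l) • m ≠ 0) :
    LinearIndependent ℂ (fun a : EX N l => mon N q (gF N l q) a.1 • m) := by
  obtain ⟨h0, h1, h2⟩ := par_facts hpar
  refine hSOC N l q hpar M (fun k => lsm (gF N l q k)) (fun b => mon N q (gF N l q) b • m)
    ?_ ?_ ht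
  · rintro b ⟨i, j, hij, hj, hb⟩
    rw [mon_eq_zero (glA N l q).pF hij hj hb, zero_smul]
  · intro k hk b _
    change gF N l q k • (mon N q (gF N l q) b • m) = _
    rw [← mul_smul, hLM (A N l q) N q (gF N l q) h0 h1 h2 (glA N l q).sF b k hk, add_smul,
      Finset.sum_smul, smul_assoc]
    congr 1
    exact Finset.sum_congr rfl fun i _ => smul_assoc _ _ _

end Act

end

end Pool.Agent.Helper96.SQ.ZB

namespace Pool.Agent.Helper96.SQ

open Pool.Agent.Helper19.SQ Pool.Agent.Helper96.SQ.ZB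

/-- Goal ZB of project SQ. -/
theorem s_zb (hGAM : S_GAM) (hSOC : S_SOC) (hLM : S_LM) (hTRI : S_TRI) (hFDIM : S_FDIM)
    (hZUNIV : S_ZUNIV) (hHARM : S_HARM) : Pool.Agent.Helper19.SQ.S_ZB := by
  intro N l _ q D hpar lam
  obtain ⟨hconst, hpos⟩ := hHARM N l q D hpar
  have hfd := hFDIM N l q hpar
  -- upper bound
  have hsp : ∀ mu : Fin (N + 1) → ZMod l, Submodule.span ℂ
      (Set.range fun a : EX N l => mon N q (gF N l q) a.1 • zgen q mu) = ⊤ := by
    intro mu
    obtain ⟨_, h2, h3, _⟩ := hZUNIV N l q hpar hfd mu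
    exact span_top hTRI hpar (zgen q mu) mu h2 h3
  have hle : ∀ mu : Fin (N + 1) → ZMod l, dZ (N := N) q mu ≤ Fintype.card (EX N l) := by
    intro mu
    have h := finrank_range_le_card (R := ℂ)
      (fun a : EX N l => mon N q (gF N l q) a.1 • zgen q mu)
    unfold Set.finrank at h
    rw [hsp mu, finrank_top] at h
    exact h
  -- lower bound at `kappa`
  have hge : Fintype.card (EX N l) ≤ dZ (N := N) q
      (fun j : Fin (N + 1) => (0 : ZMod l) + ((j : ℕ) : ZMod l)) := by
    obtain ⟨γ, hγ, hG⟩ := hGAM N l q hpar 0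
    obtain ⟨hfin, h2, h3, _⟩ := hZUNIV N l q hpar hfd
      (fun j : Fin (N + 1) => (0 : ZMod l) + ((j : ℕ) : ZMod l))
    have hm0 : zgen q (fun j : Fin (N + 1) => (0 : ZMod l) + ((j : ℕ) : ZMod l)) ≠ 0 := by
      intro hz
      rw [hz, Submodule.span_zero_singleton] at h3
      have hp := hpos (fun j : Fin (N + 1) => (0 : ZMod l) + ((j : ℕ) : ZMod l))
      have hsub : Subsingleton (Zl q
          (fun j : Fin (N + 1) => (0 : ZMod l) + ((j : ℕ) : ZMod l))) := by
        rw [← Submodule.subsingleton_iff (A N l q)]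
        exact subsingleton_of_bot_eq_top h3
      unfold dZ at hp
      rw [Module.finrank_zero_of_subsingleton] at hp
      exact lt_irrefl _ hp
    have ht : mon N q (gF N l q) (topE N l) •
        zgen q (fun j : Fin (N + 1) => (0 : ZMod l) + ((j : ℕ) : ZMod l)) ≠ 0 := by
      intro hz
      have h := hG _ (zgen q (fun j : Fin (N + 1) => (0 : ZMod l) + ((j : ℕ) : ZMod l))) h2
      rw [hz, smul_zero] at h
      exact (smul_ne_zero hγ hm0) h.symm
    exact (li_of_top hSOC hLM hpar _ ht).fintype_card_le_finrank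
  have hcard : dZ (N := N) q lam = Fintype.card (EX N l) := by
    refine le_antisymm (hle lam) ?_
    rw [hconst lam (fun j : Fin (N + 1) => (0 : ZMod l) + ((j : ℕ) : ZMod l))]
    exact hge
  obtain ⟨hfin, _, _, _⟩ := hZUNIV N l q hpar hfd lam
  exact ⟨linearIndependent_of_top_le_span_of_card_eq_finrank (hsp lam).ge hcard.symm, hsp lam,
    hcard⟩

end Pool.Agent.Helper96.SQ
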