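import Pool.Agent.Helper19.SQ.GoalsH

/-!
# Project SQ (MP_bb32d1_al), goal LM: left multiplication of a monomial by `E_k`
-/

set_option autoImplicit false

namespace Pool.Agent.Helper96.SQ

open Pool.Agent.Helper19.SQ

noncomputable section

variable {B : Type} [Ring B]

/-- product of the values `g 0, ..., g (n-1)` -/
def Pr (n : ℕ) (g : ℕ → B) : B := ((List.range n).map g).prod

theorem Pr_zero (g : ℕ → B) : Pr 0 g = 1 := rfl

theorem Pr_succ (n : ℕ) (g : ℕ → B) : Pr (n + 1) g = Pr n g * g n := by
  unfold Pr
  rw [List.range_succ, List.map_append, List.prod_append, List.map_singleton, List.prod_singleton]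

theorem Pr_congr {n : ℕ} {g h : ℕ → B} (H : ∀ i, i < n → g i = h i) : Pr n g = Pr n h := by
  unfold Pr
  congr 1
  exact List.map_congr_left fun i hi => H i (List.mem_range.1 hi)

theorem Pr_add (a m : ℕ) (g : ℕ → B) : Pr (a + m) g = Pr a g * Pr m (fun d => g (a + d)) := by
  induction m with
  | zero => simp [Pr_zero]
  | succ m ih => rw [← add_assoc, Pr_succ, ih, Pr_succ, mul_assoc]

theorem Pr_comm {n : ℕ} {g : ℕ → B} {y : B} (H : ∀ i, i < n → y * g i = g i * y) :
    y * Pr n g = Pr n g * y := by
  induction n with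
  | zero => simp [Pr_zero]
  | succ n ih =>
    rw [Pr_succ, ← mul_assoc, ih (fun i hi => H i (by omega)), mul_assoc, H n (by omega),
      mul_assoc]

/-- replacement of one value -/
def rep (R : ℕ → B) (i : ℕ) (x : B) : ℕ → B := fun j => if j = i then x else R j

variable [Algebra ℂ B]

theorem abstractLM (k : ℕ) (y : B) (R R' : ℕ → B) (c t : ℕ → ℂ) (S : B)
    (h1 : ∀ i, i < k → y * R i = c i • (R i * y) + t i • R' i) (h2 : y * R k = S) (N : ℕ)
    (hk : k < N) :
    y * Pr N R = (∑ i ∈ Finset.range k, ((∏ s ∈ Finset.range i, c s) * t i) •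
      Pr N (rep R i (R' i))) + (∏ s ∈ Finset.range k, c s) • Pr N (rep R k S) := by
  have key : ∀ i, i ≤ k → y * Pr i R = (∑ i' ∈ Finset.range i,
      ((∏ s ∈ Finset.range i', c s) * t i') • Pr i (rep R i' (R' i'))) +
      (∏ s ∈ Finset.range i, c s) • (Pr i R * y) := by
    intro i
    induction i with
    | zero => intro _; simp [Pr_zero]
    | succ i ih =>
      intro hi
      have e0 : Pr i R = Pr i (rep R i (R' i)) := Pr_congr fun j hj => by
        simp only [rep]; rw [if_neg (by omega)]
      have e1 : ∀ i' ∈ Finset.range i, ((∏ s ∈ Finset.range i', c s) * t i') •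
          Pr i (rep R i' (R' i')) * R i = ((∏ s ∈ Finset.range i', c s) * t i') •
          Pr (i + 1) (rep R i' (R' i')) := by
        intro i' hi'
        have : rep R i' (R' i') i = R i := by
          simp only [rep]; rw [if_neg (by have := Finset.mem_range.1 hi'; omega)]
        rw [Pr_succ, this, smul_mul_assoc]
      rw [Finset.sum_range_succ, Finset.prod_range_succ, Pr_succ, ← mul_assoc, ih (by omega),
        add_mul, Finset.sum_mul, Finset.sum_congr rfl e1, add_assoc]
      congr 1
      have e2 : rep R i (R' i) i = R' i := by simp [rep]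
      rw [Pr_succ i (rep R i (R' i)), e2, ← e0, smul_mul_assoc, mul_assoc (Pr i R) y (R i),
        h1 i (by omega), mul_add, mul_smul_comm, mul_smul_comm, smul_add, smul_smul, smul_smul,
        mul_assoc (Pr i R) (R i) y, add_comm]
  have key2 : ∀ n, k + 1 ≤ n → y * Pr n R = (∑ i ∈ Finset.range k,
      ((∏ s ∈ Finset.range i, c s) * t i) • Pr n (rep R i (R' i))) +
      (∏ s ∈ Finset.range k, c s) • Pr n (rep R k S) := by
    intro n hn
    induction n, hn using Nat.le_induction with
    | base =>
      have e0 : Pr k R = Pr k (rep R k S) := Pr_congr fun j hj => by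
        simp only [rep]; rw [if_neg (by omega)]
      have e1 : ∀ i' ∈ Finset.range k, ((∏ s ∈ Finset.range i', c s) * t i') •
          Pr k (rep R i' (R' i')) * R k = ((∏ s ∈ Finset.range i', c s) * t i') •
          Pr (k + 1) (rep R i' (R' i')) := by
        intro i' hi'
        have : rep R i' (R' i') k = R k := by
          simp only [rep]; rw [if_neg (by have := Finset.mem_range.1 hi'; omega)]
        rw [Pr_succ, this, smul_mul_assoc]
      have e2 : rep R k S k = S := by simp [rep]
      rw [Pr_succ, ← mul_assoc, key k le_rfl, add_mul, Finset.sum_mul, Finset.sum_congr rfl e1,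
        smul_mul_assoc, mul_assoc (Pr k R) y (R k), h2, Pr_succ k (rep R k S), e2, ← e0]
    | succ n hn ih =>
      have e1 : ∀ i' ∈ Finset.range k, ((∏ s ∈ Finset.range i', c s) * t i') •
          Pr n (rep R i' (R' i')) * R n = ((∏ s ∈ Finset.range i', c s) * t i') •
          Pr (n + 1) (rep R i' (R' i')) := by
        intro i' hi'
        have : rep R i' (R' i') n = R n := by
          simp only [rep]; rw [if_neg (by have := Finset.mem_range.1 hi'; omega)]
        rw [Pr_succ, this, smul_mul_assoc]
      have e2 : rep R k S n = R n := by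
        simp only [rep]; rw [if_neg (by omega)]
      rw [Pr_succ, ← mul_assoc, ih, add_mul, Finset.sum_mul, Finset.sum_congr rfl e1,
        smul_mul_assoc, Pr_succ n (rep R k S), e2]
  exact key2 N hk

theorem qn_succ {q : ℂ} (h0 : q ≠ 0) (h1 : q ^ 2 ≠ 1) (c : ℕ) :
    q * qn q (c + 1) = q ^ (c + 1) + qn q c := by
  have h2 : q - q⁻¹ ≠ 0 := by
    intro h
    apply h1
    have : q * (q - q⁻¹) = 0 := by rw [h, mul_zero]
    rw [mul_sub, mul_inv_cancel₀ h0] at this
    linear_combination this
  have e : q * q⁻¹ = 1 := mul_inv_cancel₀ h0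
  have key : q * (q ^ (c + 1) - q⁻¹ ^ (c + 1)) =
      q ^ (c + 1) * (q - q⁻¹) + (q ^ c - q⁻¹ ^ c) := by
    rw [pow_succ q⁻¹ c, pow_succ q c]
    linear_combination (q ^ c - q⁻¹ ^ c) * e
  unfold qn
  rw [← mul_div_assoc, key, add_div, mul_div_cancel_right₀ _ h2]

/-- commutation of `y` with a power of `x`: `y x^c = q^c x^c y - q [c] x^(c-1) z` -/
theorem pow_comm {q : ℂ} (h0 : q ≠ 0) (h1 : q ^ 2 ≠ 1) {x y z : B}
    (hyx : y * x = q • (x * y) - q • z) (hzx : x * z = q • (z * x)) (c : ℕ) :
    y * x ^ c = q ^ c • (x ^ c * y) + (-q * qn q c) • (x ^ (c - 1) * z) := by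
  have hzx' : z * x = q⁻¹ • (x * z) := by
    rw [hzx, smul_smul, inv_mul_cancel₀ h0, one_smul]
  induction c with
  | zero => simp [qn]
  | succ c ih =>
    have e1 : (-q * qn q c) • (x ^ (c - 1) * z * x) = (-qn q c) • (x ^ c * z) := by
      rcases c with _ | c
      · simp [qn]
      · rw [Nat.add_sub_cancel, mul_assoc, hzx', mul_smul_comm, smul_smul, ← mul_assoc,
          ← pow_succ]
        congr 1
        field_simp
    rw [pow_succ, ← mul_assoc, ih, add_mul, smul_mul_assoc, smul_mul_assoc, e1, mul_assoc _ y x,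
      hyx, mul_sub, mul_smul_comm, mul_smul_comm, smul_sub, smul_smul, smul_smul,
      ← mul_assoc _ x y, Nat.add_sub_cancel, neg_mul, qn_succ h0 h1, ← pow_succ]
    rw [← pow_succ]
    module

theorem s_lm (hROOT : S_ROOT) : S_LM := by
  intro B _ _ N q E h0 h1 hm1 hS b k hk
  have hR := hROOT B q E h0 hm1 hS
  have hmon : ∀ b', mon N q E b' = Pr N (fun i => rowM N q E b' i) := fun _ => rfl
  have hrow : ∀ b' i, rowM N q E b' i = Pr (N - i)
      (fun d => rv q E i (i + 1 + d) ^ b' i (i + 1 + d)) := fun _ _ => rfl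
  -- rows which are changed
  have hmvr_ne : ∀ i j, j ≠ i → rowM N q E (mvr b i k) j = rowM N q E b j := by
    intro i j hj
    rw [hrow, hrow]
    refine Pr_congr fun d _ => ?_
    simp only [mvr, inc, upd]
    rw [if_neg (fun h => hj h.1), if_neg (fun h => hj h.1)]
  have hinc_ne : ∀ j, j ≠ k → rowM N q E (inc b k (k + 1)) j = rowM N q E b j := by
    intro j hj
    rw [hrow, hrow]
    refine Pr_congr fun d _ => ?_
    simp only [inc, upd]
    rw [if_neg (fun h => hj h.1)]
  have hA := abstractLM k (E k) (fun i => rowM N q E b i) (fun i => rowM N q E (mvr b i k) i)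
    (fun i => q ^ ((b i k : ℤ) - (b i (k + 1) : ℤ))) (fun i => -q * qn q (b i k))
    (rowM N q E (inc b k (k + 1)) k) ?_ ?_ N hk
  · rw [hmon b, hA]
    congr 1
    · refine Finset.sum_congr rfl fun i _ => ?_
      rw [hmon]
      congr 1
      refine Pr_congr fun j _ => ?_
      by_cases hj : j = i
      · subst hj
        simp [rep]
      · simp only [rep]
        rw [if_neg hj, hmvr_ne i j hj]
    · rw [hmon]
      congr 1
      refine Pr_congr fun j _ => ?_
      by_cases hj : j = k
      · subst hj
        simp [rep]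
      · simp only [rep]
        rw [if_neg hj, hinc_ne j hj]
  · -- the rows i < k
    intro i hik
    have hx : E k * rv q E i k = q • (rv q E i k * E k) - q • rv q E i (k + 1) := by
      rw [hR.R3 i k hik, smul_sub, smul_smul, mul_inv_cancel₀ h0, one_smul]
      abel
    have hz : rv q E i k * rv q E i (k + 1) = q • (rv q E i (k + 1) * rv q E i k) :=
      hR.R10 i k (k + 1) hik (by omega)
    have hyz : E k * rv q E i (k + 1) = q⁻¹ • (rv q E i (k + 1) * E k) := by
      rw [hR.R5 i k hik, smul_smul, inv_mul_cancel₀ h0, one_smul]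
    have hyzm : ∀ m : ℕ, E k * rv q E i (k + 1) ^ m = q⁻¹ ^ m • (rv q E i (k + 1) ^ m * E k) := by
      intro m
      induction m with
      | zero => simp
      | succ m ih =>
        rw [pow_succ, ← mul_assoc, ih, smul_mul_assoc, mul_assoc, hyz, mul_smul_comm, smul_smul,
          ← mul_assoc, ← pow_succ]
    -- splitting of a row
    have hsplit : ∀ g : ℕ → B, Pr (N - i) g = Pr (k - i - 1) g *
        (g (k - i - 1) * g (k - i) * Pr (N - k - 1) (fun d => g (k - i + 1 + d))) := by
      intro g
      have e : N - i = (k - i - 1) + (2 + (N - k - 1)) := by omega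
      rw [e, Pr_add, Pr_add 2]
      congr 1
      have e2 : Pr 2 (fun d => g (k - i - 1 + d)) = g (k - i - 1) * g (k - i) := by
        rw [Pr_succ, Pr_succ, Pr_zero, one_mul]
        simp only [add_zero]
        congr 2
        omega
      rw [e2]
      congr 1
      refine Pr_congr fun d _ => ?_
      congr 1
      omega
    rw [hrow, hrow, hsplit, hsplit]
    have i1 : i + 1 + (k - i - 1) = k := by omega
    have i2 : i + 1 + (k - i) = k + 1 := by omega
    have b1 : mvr b i k i k = b i k - 1 := by
      simp only [mvr, inc, upd]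
      rw [if_neg (fun h => by omega)]
      simp
    have b2 : mvr b i k i (k + 1) = b i (k + 1) + 1 := by
      simp only [mvr, inc, upd]
      simp
    have hP : Pr (k - i - 1) (fun d => rv q E i (i + 1 + d) ^ mvr b i k i (i + 1 + d)) =
        Pr (k - i - 1) (fun d => rv q E i (i + 1 + d) ^ b i (i + 1 + d)) := by
      refine Pr_congr fun d hd => ?_
      congr 1
      simp only [mvr, inc, upd]
      rw [if_neg (fun h => by omega), if_neg (fun h => by omega)]
    have hQ : Pr (N - k - 1) (fun d => rv q E i (i + 1 + (k - i + 1 + d)) ^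
          mvr b i k i (i + 1 + (k - i + 1 + d))) =
        Pr (N - k - 1) (fun d => rv q E i (i + 1 + (k - i + 1 + d)) ^
          b i (i + 1 + (k - i + 1 + d))) := by
      refine Pr_congr fun d hd => ?_
      congr 1
      simp only [mvr, inc, upd]
      rw [if_neg (fun h => by omega), if_neg (fun h => by omega)]
    have hPc : E k * Pr (k - i - 1) (fun d => rv q E i (i + 1 + d) ^ b i (i + 1 + d)) =
        Pr (k - i - 1) (fun d => rv q E i (i + 1 + d) ^ b i (i + 1 + d)) * E k := by
      refine Pr_comm fun d hd => ?_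
      have h : Commute (E k) (rv q E i (i + 1 + d)) := hR.R2 k i (i + 1 + d) (by omega)
        (Or.inr (by omega))
      exact h.pow_right _
    have hQc : E k * Pr (N - k - 1) (fun d => rv q E i (i + 1 + (k - i + 1 + d)) ^
          b i (i + 1 + (k - i + 1 + d))) =
        Pr (N - k - 1) (fun d => rv q E i (i + 1 + (k - i + 1 + d)) ^
          b i (i + 1 + (k - i + 1 + d))) * E k := by
      refine Pr_comm fun d hd => ?_
      have h : Commute (E k) (rv q E i (i + 1 + (k - i + 1 + d))) :=
        hR.R6 i k _ hik (by omega)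
      exact h.pow_right _
    rw [hP, hQ, i1, i2, b1, b2]
    generalize Pr (k - i - 1) (fun d => rv q E i (i + 1 + d) ^ b i (i + 1 + d)) = P at hPc ⊢
    generalize Pr (N - k - 1) (fun d => rv q E i (i + 1 + (k - i + 1 + d)) ^
          b i (i + 1 + (k - i + 1 + d))) = Q at hQc ⊢
    have hpow := pow_comm h0 h1 hx hz (b i k)
    have hzm := hyzm (b i (k + 1))
    generalize rv q E i k = x at *
    generalize rv q E i (k + 1) = z at *
    generalize E k = y at *
    have hexp : q ^ ((b i k : ℤ) - (b i (k + 1) : ℤ)) = q ^ (b i k) * q⁻¹ ^ (b i (k + 1)) := by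
      rw [zpow_sub₀ h0, zpow_natCast, zpow_natCast, inv_pow, div_eq_mul_inv]
    rw [hexp]
    generalize b i k = c at *
    generalize b i (k + 1) = m at *
    calc y * (P * (x ^ c * z ^ m * Q)) = P * ((y * x ^ c) * z ^ m * Q) := by
          rw [← mul_assoc, hPc]
          simp only [mul_assoc]
      _ = q ^ c • (P * (x ^ c * (y * z ^ m) * Q)) +
          (-q * qn q c) • (P * (x ^ (c - 1) * z * z ^ m * Q)) := by
          rw [hpow]
          simp only [add_mul, mul_add, smul_mul_assoc, mul_smul_comm, mul_assoc]
      _ = (q ^ c * q⁻¹ ^ m) • (P * (x ^ c * z ^ m * (y * Q))) +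
          (-q * qn q c) • (P * (x ^ (c - 1) * z ^ (m + 1) * Q)) := by
          rw [hzm, pow_succ' z m]
          simp only [smul_mul_assoc, mul_smul_comm, mul_assoc, smul_smul]
      _ = _ := by
          rw [hQc]
          simp only [mul_assoc]
  · -- the row k
    rw [hrow, hrow]
    have e : N - k = (N - k - 1) + 1 := by omega
    have hb : inc b k (k + 1) k (k + 1) = b k (k + 1) + 1 := by
      simp [inc, upd]
    have hfirst : ∀ g : ℕ → B, Pr (N - k) g = g 0 * Pr (N - k - 1) (fun d => g (1 + d)) := by
      intro g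
      rw [show N - k = 1 + (N - k - 1) by omega, Pr_add, Pr_succ, Pr_zero, one_mul]
      congr 2
      omega
    rw [hfirst, hfirst]
    simp only [add_zero]
    rw [hb, hR.base k, ← mul_assoc, ← pow_succ']
    congr 1
    refine Pr_congr fun d _ => ?_
    congr 1
    simp only [inc, upd]
    rw [if_neg (fun h => by omega)]

end

end Pool.Agent.Helper96.SQ
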